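import Pool.Agent.helper4.HL.Spec
import Pool.Agent.helper35.CM.ME

/-!
# Module hl:MKC (MP_07c750_an): the inequality for continuous functions
-/

open scoped BigOperators ComplexOrder ComplexConjugate Topology

namespace Pool.Agent.HL

open Pool.Agent.helper86.CM Pool.Agent.QS Filter MeasureTheory

noncomputable section

theorem MKC_vol : (volume : Measure T2) = ME_H (Fin 1 ⊕ Fin 1) := by
  unfold ME_H
  have h : (volume : Measure UnitAddCircle) = AddCircle.haarAddCircle := by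
    have := AddCircle.volume_eq_smul_haarAddCircle (T := 1)
    simpa using this
  rw [← h]
  rfl

/-- The integral as a function of a continuous function. -/
def MKC_I (μ : Measure T2) (h : C(T2, ℂ)) : ℂ := ∫ y, h y ∂μ

theorem MKC_intg (μ : Measure T2) [IsProbabilityMeasure μ] {g : T2 → ℂ} (hg : Continuous g) :
    Integrable g μ := by
  obtain ⟨C, hC⟩ := (isCompact_range hg).isBounded.exists_norm_le
  exact Integrable.of_bound hg.aestronglyMeasurable C
    (Filter.Eventually.of_forall fun y => hC _ ⟨y, rfl⟩)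

theorem MKC_cont (μ : Measure T2) [IsProbabilityMeasure μ] : Continuous (MKC_I μ) := by
  have : LipschitzWith 1 (MKC_I μ) := by
    refine LipschitzWith.of_dist_le_mul fun h h' => ?_
    rw [dist_eq_norm, dist_eq_norm]
    unfold MKC_I
    rw [← integral_sub (MKC_intg μ h.continuous) (MKC_intg μ h'.continuous)]
    have := norm_integral_le_of_norm_le_const (μ := μ) (f := fun y => h y - h' y)
      (C := ‖h - h'‖) (Filter.Eventually.of_forall fun y => (h - h').norm_coe_le_norm y)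
    simpa using this
  exact this.continuous

theorem MKC_span (μ : Measure T2) [IsProbabilityMeasure μ] (hμ : Cen μ) (h : C(T2, ℂ))
    (hh : h ∈ Submodule.span ℂ (Set.range (UnitAddTorus.mFourier (d := Fin 1 ⊕ Fin 1)))) :
    2 * ‖MKC_I μ h - MKC_I (ME_H (Fin 1 ⊕ Fin 1)) h‖ ^ 2 ≤
      (MKC_I μ (star (h - algebraMap ℂ C(T2, ℂ) (MKC_I (ME_H (Fin 1 ⊕ Fin 1)) h)) *
        (h - algebraMap ℂ C(T2, ℂ) (MKC_I (ME_H (Fin 1 ⊕ Fin 1)) h)))).re := by
  classical
  obtain ⟨c, hc⟩ := (Finsupp.mem_span_range_iff_exists_finsupp).1 hh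
  have hval : ∀ y, h y = ∑ n ∈ c.support, c n * chr n y := by
    intro y
    rw [← hc, Finsupp.sum, ContinuousMap.sum_apply]
    rfl
  have hI0 : MKC_I (ME_H (Fin 1 ⊕ Fin 1)) h = c 0 := by
    unfold MKC_I
    simp only [hval]
    rw [integral_finsetSum]
    · have : ∀ n ∈ c.support, ∫ y, c n * chr n y ∂(ME_H (Fin 1 ⊕ Fin 1)) =
          if n = 0 then c 0 else 0 := by
        intro n _
        rw [integral_const_mul]
        have e := ME_haar (κ := Fin 1 ⊕ Fin 1) n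
        have e' : ∫ y, chr n y ∂(ME_H (Fin 1 ⊕ Fin 1)) = if n = 0 then 1 else 0 := e
        rw [e']
        by_cases h0 : n = 0
        · simp [h0]
        · simp [h0]
      rw [Finset.sum_congr rfl this, Finset.sum_ite_eq']
      by_cases h0 : (0 : Lat 1) ∈ c.support
      · rw [if_pos h0]
      · rw [if_neg h0]
        exact (Finsupp.notMem_support_iff.1 h0).symm
    · intro n _
      exact MKC_intg _ (continuous_const.mul (UnitAddTorus.mFourier n).continuous)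
  have hsub : ∀ y, h y - c 0 = ∑ n ∈ c.support.erase 0, c n * chr n y := by
    intro y
    rw [hval]
    by_cases h0 : (0 : Lat 1) ∈ c.support
    · rw [← Finset.add_sum_erase _ _ h0]
      have : chr (0 : Lat 1) y = 1 := by
        unfold chr
        rw [UnitAddTorus.mFourier_zero]
        rfl
      rw [this]
      ring
    · rw [Finset.erase_eq_of_notMem h0, Finsupp.notMem_support_iff.1 h0, sub_zero]
  have hI1 : MKC_I μ h - c 0 = ∑ n ∈ c.support.erase 0, c n * ∫ y, chr n y ∂μ := by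
    have e1 : MKC_I μ h - c 0 = ∫ y, (h y - c 0) ∂μ := by
      rw [integral_sub (MKC_intg μ h.continuous) (integrable_const _)]
      simp [MKC_I]
    rw [e1]
    simp only [hsub]
    rw [integral_finsetSum]
    · refine Finset.sum_congr rfl fun n _ => ?_
      rw [integral_const_mul]
    · intro n _
      exact MKC_intg _ (continuous_const.mul (UnitAddTorus.mFourier n).continuous)
  have key := hμ (c.support.erase 0) c (Finset.notMem_erase _ _)
  rw [hI0, hI1]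
  refine key.trans (le_of_eq ?_)
  have e2 : MKC_I μ (star (h - algebraMap ℂ C(T2, ℂ) (c 0)) *
      (h - algebraMap ℂ C(T2, ℂ) (c 0))) =
      ((∫ y, ‖∑ n ∈ c.support.erase 0, c n * chr n y‖ ^ 2 ∂μ : ℝ) : ℂ) := by
    unfold MKC_I
    refine Eq.trans ?_ (integral_ofReal (𝕜 := ℂ))
    congr 1
    funext y
    rw [← hsub]
    have e3 : (star (h - algebraMap ℂ C(T2, ℂ) (c 0)) * (h - algebraMap ℂ C(T2, ℂ) (c 0))) y =
        (starRingEnd ℂ) (h y - c 0) * (h y - c 0) := rfl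
    rw [e3, ← Complex.normSq_eq_conj_mul_self, Complex.normSq_eq_norm_sq]
    push_cast
    rfl
  rw [e2, Complex.ofReal_re]

theorem MKC_all (μ : Measure T2) [IsProbabilityMeasure μ] (hμ : Cen μ) (h : C(T2, ℂ)) :
    2 * ‖MKC_I μ h - MKC_I (ME_H (Fin 1 ⊕ Fin 1)) h‖ ^ 2 ≤
      (MKC_I μ (star (h - algebraMap ℂ C(T2, ℂ) (MKC_I (ME_H (Fin 1 ⊕ Fin 1)) h)) *
        (h - algebraMap ℂ C(T2, ℂ) (MKC_I (ME_H (Fin 1 ⊕ Fin 1)) h)))).re := by
  have hcl : IsClosed {h : C(T2, ℂ) | 2 * ‖MKC_I μ h - MKC_I (ME_H (Fin 1 ⊕ Fin 1)) h‖ ^ 2 ≤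
      (MKC_I μ (star (h - algebraMap ℂ C(T2, ℂ) (MKC_I (ME_H (Fin 1 ⊕ Fin 1)) h)) *
        (h - algebraMap ℂ C(T2, ℂ) (MKC_I (ME_H (Fin 1 ⊕ Fin 1)) h)))).re} := by
    have c1 := MKC_cont μ
    have c2 := MKC_cont (ME_H (Fin 1 ⊕ Fin 1))
    have c3 : Continuous fun h : C(T2, ℂ) =>
        h - algebraMap ℂ C(T2, ℂ) (MKC_I (ME_H (Fin 1 ⊕ Fin 1)) h) :=
      continuous_id.sub ((continuous_algebraMap ℂ C(T2, ℂ)).comp c2)
    refine isClosed_le ?_ ?_
    · exact continuous_const.mul ((c1.sub c2).norm.pow 2)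
    · exact Complex.continuous_re.comp (c1.comp (c3.star.mul c3))
  have htop := UnitAddTorus.span_mFourier_closure_eq_top (d := Fin 1 ⊕ Fin 1)
  have hmem : h ∈ (Submodule.span ℂ
      (Set.range (UnitAddTorus.mFourier (d := Fin 1 ⊕ Fin 1)))).topologicalClosure := by
    rw [htop]
    trivial
  have hmem' : h ∈ closure ((Submodule.span ℂ
      (Set.range (UnitAddTorus.mFourier (d := Fin 1 ⊕ Fin 1))) : Submodule ℂ C(T2, ℂ)) :
      Set C(T2, ℂ)) := hmem
  exact closure_minimal (fun g hg => MKC_span μ hμ g hg) hcl hmem'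

theorem MKC : MKC_stmt := by
  intro μ hprob hμ f hf
  have hc : Continuous fun y => ((f y : ℝ) : ℂ) := Complex.continuous_ofReal.comp hf
  have key := MKC_all μ hμ ⟨fun y => ((f y : ℝ) : ℂ), hc⟩
  have e1 : MKC_I μ ⟨fun y => ((f y : ℝ) : ℂ), hc⟩ = ((∫ y, f y ∂μ : ℝ) : ℂ) := by
    unfold MKC_I
    exact integral_ofReal
  have e2 : MKC_I (ME_H (Fin 1 ⊕ Fin 1)) ⟨fun y => ((f y : ℝ) : ℂ), hc⟩ =
      ((∫ y, f y : ℝ) : ℂ) := by
    unfold MKC_I
    rw [MKC_vol]
    exact integral_ofReal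
  rw [e1, e2] at key
  have e3 : MKC_I μ (star ((⟨fun y => ((f y : ℝ) : ℂ), hc⟩ : C(T2, ℂ)) -
      algebraMap ℂ C(T2, ℂ) ((∫ y, f y : ℝ) : ℂ)) *
      ((⟨fun y => ((f y : ℝ) : ℂ), hc⟩ : C(T2, ℂ)) -
        algebraMap ℂ C(T2, ℂ) ((∫ y, f y : ℝ) : ℂ))) =
      ((∫ y, (f y - ∫ z, f z) ^ 2 ∂μ : ℝ) : ℂ) := by
    unfold MKC_I
    refine Eq.trans ?_ (integral_ofReal (𝕜 := ℂ))
    congr 1
    funext y
    have e4 : (star ((⟨fun y => ((f y : ℝ) : ℂ), hc⟩ : C(T2, ℂ)) -
      algebraMap ℂ C(T2, ℂ) ((∫ y, f y : ℝ) : ℂ)) *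
      ((⟨fun y => ((f y : ℝ) : ℂ), hc⟩ : C(T2, ℂ)) -
        algebraMap ℂ C(T2, ℂ) ((∫ y, f y : ℝ) : ℂ))) y =
        (starRingEnd ℂ) (((f y : ℝ) : ℂ) - ((∫ y, f y : ℝ) : ℂ)) *
        (((f y : ℝ) : ℂ) - ((∫ y, f y : ℝ) : ℂ)) := rfl
    rw [e4, ← Complex.ofReal_sub, Complex.conj_ofReal, ← Complex.ofReal_mul, sq]
    rfl
  rw [e3, Complex.ofReal_re, ← Complex.ofReal_sub, Complex.norm_real, Real.norm_eq_abs,
    sq_abs] at key
  exact key

end

end Pool.Agent.HL
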