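import Pool.Agent.helper4.HL.Spec

/-!
# Module hl:ORT (MP_07c750_an): orthogonality in the mean
-/

open scoped BigOperators ComplexOrder ComplexConjugate Topology

namespace Pool.Agent.HL

open Pool.Agent.helper86.CM Pool.Agent.QS Filter MeasureTheory

noncomputable section

theorem ORT_beta0 (B : Lat 1 ≃ₗ[ℤ] Lat 1) (t : ℤ) : beta B t 0 0 = 0 := by
  unfold beta
  rw [omega_zero_left, omega_zero_left]
  simp

theorem ORT_beta0l (B : Lat 1 ≃ₗ[ℤ] Lat 1) (t : ℤ) (y : Lat 1) : beta B t 0 y = 0 := by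
  unfold beta
  rw [omega_zero_left, omega_zero_left]
  simp

theorem ORT_hx1 (hBET : BET_stmt) {B : Lat 1 ≃ₗ[ℤ] Lat 1} {t : ℤ} (hB : Cat B t) (X : ℝ)
    (n m : Lat 1) (s : ℕ) :
    hx B t X ((n, 0) : PP) ((0, pw B (s : ℤ) m) : PP) = X * beta B t n m * lam t ^ s / 2 := by
  have h1 := (hBET B t hB).1 (s : ℤ) n m
  simp only [hx, hh]
  rw [h1, ORT_beta0, zpow_natCast]
  ring

theorem ORT_hx2 (hBET : BET_stmt) {B : Lat 1 ≃ₗ[ℤ] Lat 1} {t : ℤ} (hB : Cat B t) (X : ℝ)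
    (n m : Lat 1) (s : ℕ) :
    hx B t X ((0, -pw B (s : ℤ) m) : PP) ((-n, 0) : PP) =
      -(X * beta B t n m * lam t ^ s / 2) := by
  have hb := bil_hx B t X
  have e1 : ((0, -pw B (s : ℤ) m) : PP) = -((0, pw B (s : ℤ) m) : PP) := by simp
  have e2 : ((-n, 0) : PP) = -((n, 0) : PP) := by simp
  rw [e1, e2, hb.negl, hb.negr, neg_neg, hb.skew, ORT_hx1 hBET hB]

theorem ORT_hx3 {B : Lat 1 ≃ₗ[ℤ] Lat 1} {t : ℤ} (X : ℝ) (x y : Lat 1) :
    hx B t X ((0, x) : PP) ((0, y) : PP) = 0 := by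
  simp only [hx, hh]
  rw [ORT_beta0l, ORT_beta0l]
  simp

theorem ORT_inv {B : Lat 1 ≃ₗ[ℤ] Lat 1} {Φ : PP → ℂ} (hinv : ∀ x, Φ (BB B x) = Φ x) (s : ℕ)
    (x : PP) : Φ (pw B (s : ℤ) x.1, pw B (s : ℤ) x.2) = Φ x := by
  induction s with
  | zero => simp
  | succ s ih =>
    rw [← ih, ← hinv (pw B (s : ℤ) x.1, pw B (s : ℤ) x.2)]
    push_cast
    rw [pw_succ, pw_succ]
    rfl

theorem ORT_main (hKOL : KOL_stmt) (hVDC : VDC_stmt) (hBET : BET_stmt) (hPDB : PDB_stmt)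
    {B : Lat 1 ≃ₗ[ℤ] Lat 1} {t : ℤ} (hB : Cat B t) (X : ℝ) {Φ : PP → ℂ}
    (hPD : PD (hx B t X) Φ) (h0 : Φ 0 = 1) (hinv : ∀ x, Φ (BB B x) = Φ x) (n m : Lat 1)
    (l M : ℕ) (hl : 1 ≤ l) (hM : 1 ≤ M) :
    ‖(l : ℂ)⁻¹ * ∑ s ∈ Finset.range l, ee (-(hx B t X ((n, 0) : PP) ((0, pw B (s : ℤ) m) : PP))) *
      Φ ((-n, pw B (s : ℤ) m) : PP)‖ ^ 2 ≤ 1 / M + 4 * M / l +
      2 / M * ∑ d ∈ Finset.Ico 1 M, ‖(l : ℂ)⁻¹ * ∑ s ∈ Finset.range l,
        ee (X * beta B t n m * ((lam t) ^ (s + d) - (lam t) ^ s))‖ := by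
  classical
  have hb := bil_hx B t X
  have hΦ1 := (hPDB PP (hx B t X) hb Φ hPD h0).1
  set X' : ℝ := X * beta B t n m with hX'
  let p : ℕ → PP := fun s => (0, -pw B (s : ℤ) m)
  let z : PP := (-n, 0)
  obtain ⟨q, v, hv⟩ := hKOL PP (hx B t X) Φ hPD
    (insert z ((Finset.range (l + M)).image p))
  have hz : z ∈ insert z ((Finset.range (l + M)).image p) := Finset.mem_insert_self _ _
  have hp : ∀ s < l + M, p s ∈ insert z ((Finset.range (l + M)).image p) := fun s hs =>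
    Finset.mem_insert_of_mem (Finset.mem_image_of_mem _ (Finset.mem_range.2 hs))
  have hnorm : ∀ x ∈ insert z ((Finset.range (l + M)).image p), ‖v x‖ = 1 := by
    intro x hx'
    have e1 := hv x hx' x hx'
    rw [hb.self, neg_zero, ee_zero, one_mul, sub_self, h0] at e1
    have e2 := inner_self_eq_norm_sq_to_K (𝕜 := ℂ) (v x)
    rw [e1] at e2
    have e3 : ‖v x‖ ^ 2 = 1 := by
      have : ((‖v x‖ ^ 2 : ℝ) : ℂ) = 1 := by
        push_cast
        exact e2.symm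
      exact_mod_cast this
    nlinarith [norm_nonneg (v x), sq_nonneg (‖v x‖ - 1)]
  let w : ℕ → EuclideanSpace ℂ (Fin q) := fun s =>
    if s < l + M then ee (X' * lam t ^ s) • v (p s) else 0
  have hw : ∀ s < l + M, w s = ee (X' * lam t ^ s) • v (p s) := fun s hs => if_pos hs
  have hw1 : ∀ s, ‖w s‖ ≤ 1 := by
    intro s
    by_cases hs : s < l + M
    · rw [hw s hs, norm_smul, norm_ee, one_mul, hnorm _ (hp s hs)]
    · have : w s = 0 := if_neg hs
      rw [this, norm_zero]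
      exact zero_le_one
  have key := hVDC (EuclideanSpace ℂ (Fin q)) w hw1 l M hl hM
  -- the mean as an inner product
  have hmean : (l : ℂ)⁻¹ * ∑ s ∈ Finset.range l,
      ee (-(hx B t X ((n, 0) : PP) ((0, pw B (s : ℤ) m) : PP))) *
      Φ ((-n, pw B (s : ℤ) m) : PP) =
      inner ℂ ((l : ℂ)⁻¹ • ∑ s ∈ Finset.range l, w s) (v z) := by
    rw [inner_smul_left, sum_inner]
    congr 1
    · simp
    · refine Finset.sum_congr rfl fun s hs => ?_
      have hs' : s < l + M := by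
        have := Finset.mem_range.1 hs
        omega
      rw [hw s hs', inner_smul_left, hv _ (hp s hs') _ hz, conj_ee]
      have e1 : z - p s = ((-n, pw B (s : ℤ) m) : PP) := by
        simp [z, p]
      have e2 : hx B t X (p s) z = -(X' * lam t ^ s / 2) := ORT_hx2 hBET hB X n m s
      rw [e1, e2, ORT_hx1 hBET hB, ← mul_assoc, ← ee_add]
      congr 2
      ring
  have h1 : ‖(l : ℂ)⁻¹ * ∑ s ∈ Finset.range l,
      ee (-(hx B t X ((n, 0) : PP) ((0, pw B (s : ℤ) m) : PP))) *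
      Φ ((-n, pw B (s : ℤ) m) : PP)‖ ≤ ‖(l : ℂ)⁻¹ • ∑ s ∈ Finset.range l, w s‖ := by
    rw [hmean]
    refine (norm_inner_le_norm _ _).trans ?_
    rw [hnorm _ hz, mul_one]
  have h2 : ∀ d ∈ Finset.Ico 1 M,
      ‖(l : ℂ)⁻¹ * ∑ s ∈ Finset.range l, inner ℂ (w s) (w (s + d))‖ ≤
      ‖(l : ℂ)⁻¹ * ∑ s ∈ Finset.range l, ee (X' * ((lam t) ^ (s + d) - (lam t) ^ s))‖ := by
    intro d hd
    have hd' := Finset.mem_Ico.1 hd
    have e : ∑ s ∈ Finset.range l, inner ℂ (w s) (w (s + d)) =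
        (∑ s ∈ Finset.range l, ee (X' * ((lam t) ^ (s + d) - (lam t) ^ s))) *
          Φ ((0, m - pw B (d : ℤ) m) : PP) := by
      rw [Finset.sum_mul]
      refine Finset.sum_congr rfl fun s hs => ?_
      have hs' : s < l + M := by
        have := Finset.mem_range.1 hs
        omega
      have hsd : s + d < l + M := by
        have := Finset.mem_range.1 hs
        omega
      rw [hw s hs', hw _ hsd, inner_smul_left, inner_smul_right, hv _ (hp s hs') _ (hp _ hsd),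
        conj_ee]
      have e1 : p (s + d) - p s = ((0, pw B (s : ℤ) (m - pw B (d : ℤ) m)) : PP) := by
        simp only [p]
        rw [Prod.mk_sub_mk, map_sub, ← pw_add]
        push_cast
        refine Prod.ext ?_ ?_
        · simp
        · simp only
          abel
      have e2 : hx B t X (p s) (p (s + d)) = 0 := ORT_hx3 X _ _
      have e3 : Φ ((0, pw B (s : ℤ) (m - pw B (d : ℤ) m)) : PP) =
          Φ ((0, m - pw B (d : ℤ) m) : PP) := by
        have := ORT_inv hinv s ((0, m - pw B (d : ℤ) m) : PP)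
        simpa using this
      rw [e1, e2, e3, neg_zero, ee_zero, one_mul, ← mul_assoc, ← ee_add]
      congr 2
      ring
    rw [e, ← mul_assoc, norm_mul]
    exact mul_le_of_le_one_right (norm_nonneg _) (hΦ1 _)
  calc _ ≤ ‖(l : ℂ)⁻¹ • ∑ s ∈ Finset.range l, w s‖ ^ 2 := by
        exact pow_le_pow_left₀ (norm_nonneg _) h1 2
    _ ≤ _ := key
    _ ≤ _ := by
        have : ∑ d ∈ Finset.Ico 1 M,
          ‖(l : ℂ)⁻¹ * ∑ s ∈ Finset.range l, inner ℂ (w s) (w (s + d))‖ ≤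
          ∑ d ∈ Finset.Ico 1 M, ‖(l : ℂ)⁻¹ * ∑ s ∈ Finset.range l,
            ee (X' * ((lam t) ^ (s + d) - (lam t) ^ s))‖ := Finset.sum_le_sum h2
        have h3 : (0 : ℝ) ≤ 2 / M := by positivity
        have := mul_le_mul_of_nonneg_left this h3
        linarith

theorem ORT (hKOL : KOL_stmt) (hVDC : VDC_stmt) (hBET : BET_stmt) (hPDB : PDB_stmt) :
    ORT_stmt := by
  intro B t hB X hGen Φ hPD h0 hinv n m hn hm
  rw [Metric.tendsto_atTop]
  intro ε hε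
  -- choose `M`
  obtain ⟨M, hM⟩ := exists_nat_gt (2 / ε ^ 2)
  have hMpos : (0 : ℝ) < M := lt_trans (by positivity) hM
  have hM1 : 1 ≤ M := by
    have : (0 : ℝ) < M := hMpos
    exact Nat.one_le_iff_ne_zero.2 (by rintro rfl; simp at this)
  have hM2 : (1 : ℝ) / M < ε ^ 2 / 2 := by
    rw [div_lt_iff₀ (by positivity)] at hM
    rw [div_lt_iff₀ hMpos]
    linarith
  have hlim : Tendsto (fun l : ℕ => 4 * (M : ℝ) / l +
      2 / M * ∑ d ∈ Finset.Ico 1 M, ‖(l : ℂ)⁻¹ * ∑ s ∈ Finset.range l,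
        ee (X * beta B t n m * ((lam t) ^ (s + d) - (lam t) ^ s))‖) atTop (𝓝 0) := by
    have h1 : Tendsto (fun l : ℕ => 4 * (M : ℝ) / l) atTop (𝓝 0) :=
      tendsto_const_div_atTop_nhds_zero_nat _
    have h2 : Tendsto (fun l : ℕ => ∑ d ∈ Finset.Ico 1 M, ‖(l : ℂ)⁻¹ * ∑ s ∈ Finset.range l,
        ee (X * beta B t n m * ((lam t) ^ (s + d) - (lam t) ^ s))‖) atTop
        (𝓝 (∑ d ∈ Finset.Ico 1 M, (0 : ℝ))) := by
      refine tendsto_finsetSum _ fun d hd => ?_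
      have := (hGen n m hn hm d (Finset.mem_Ico.1 hd).1).norm
      simpa using this
    have h3 := h1.add (h2.const_mul (2 / (M : ℝ)))
    simpa using h3
  have hev := (Metric.tendsto_atTop.1 hlim) (ε ^ 2 / 2) (by positivity)
  obtain ⟨L, hL⟩ := hev
  refine ⟨max L 1, fun l hl => ?_⟩
  have hl1 : 1 ≤ l := (le_max_right L 1).trans hl
  have hlL : L ≤ l := (le_max_left L 1).trans hl
  have h4 := hL l hlL
  rw [Real.dist_eq, sub_zero] at h4
  have h5 := (abs_lt.1 h4).2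
  have h6 := ORT_main hKOL hVDC hBET hPDB hB X hPD h0 hinv n m l M hl1 hM1
  rw [dist_zero_right]
  refine lt_of_pow_lt_pow_left₀ 2 hε.le ?_
  linarith

end

end Pool.Agent.HL
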